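import Pool.Agent.N59.TT.Fin
import Pool.Agent.N456.TT_GE
import Pool.Agent.N674.TT_GP
import Pool.Agent.N607.TT_TOR
import Pool.Agent.Results.MP_6374fb_al.DirectedExtensions

/-!
# Finitely presented groups and groups of tree automorphisms of polynomial activity

Let `G` be a group of automorphisms of a regular rooted tree which is generated by automorphisms of
polynomial activity (for instance any group generated by automata of polynomial activity, such as the
groups of Grigorchuk, all groups `G_ω`, the groups of Gupta and Sidki, the Basilica group, ...). Then
every homomorphism to `G` from a finitely presented group without nonabelian free subgroups has a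
virtually abelian image. In particular every finitely presented subgroup of `G` contains a nonabelian free
group or is virtually abelian: it is not a monster of type (1), (2) or (7), and it is not an infinite torsion
group.

More generally we show that the class of the groups with this alternative is closed under subgroups, finite
products, free products, overgroups of finite index, directed colimits, and actions on trees such that the
stabilizers of the vertices are in the class and that for each edge there is a homomorphism of the whole
group to a group in the class which is injective on the stabilizer of the edge; and that it contains the groups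
which are generated by groups `H n` in the class and directed groups `D i n` in the class along rays which are
regular for `H` (so all spinal groups, also on trees of unbounded valency, with directed groups in the class).

Outline of the proof. Homomorphisms from finitely presented groups lift to the stages of a directed colimit;
this is why the alternative is stated for homomorphisms (finite presentability is not inherited by the
projections of a subgroup of a product, but a homomorphism to a product consists of two homomorphisms). Let
`G` act on a tree `T`, let `f : G → P` be injective on the stabilizers of the edges, `P` in the class, and let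
`I` be the image in `G` of a finitely presented group without free subgroups. Then `f(I)` is virtually
abelian and the kernel `M` of `f` on `I` acts with trivial stabilizers of edges. The subgroup of `M` generated
by the stabilizers of vertices is a free product of some of them; as `I` has no free subgroups, there
are at most two factors, and two of order two if there are two. If there is one, `I` fixes a vertex. If there are
two, `I` normalizes an infinite dihedral group and is virtually abelian. If there are none then `M` acts freely
on the vertices and `G` is replaced by a subgroup of `F(E) ⋊ P`, where `P` permutes the basis `E` of the free group;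
then `M` is cyclic, generated by `k`, and a subgroup of finite index of `I` fixes the letters of `k` which
have finite orbits; by B. H. Neumann's lemma the retraction to the free group on these letters does not kill `k`,
and gives a homomorphism which shows that no power of `k` is a commutator there. The theorem on polynomial
activity follows by the construction of these groups from directed colimits, wreath products and star products
(MP_8f66f0_al.PolynomialActivity).
-/

set_option autoImplicit false

namespace Pool.Agent.Results.MP_65b575_al.FreeOrVirtuallyAbelian

open Pool.Agent.Y462.SS (Closed IsTree Sections T)
open Pool.Agent.N510.PA (IsPol PolActivity)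
open Pool.Agent.Results.MP_6374fb_al.DirectedExtensions (GeneratedBy RegularData)
open scoped Pointwise

/-- `K` contains a nonabelian free group. -/
def HasFree (K : Type) [Group K] : Prop := ∃ f : FreeGroup (Fin 2) →* K, Function.Injective f

/-- `K` has an abelian subgroup of finite index. -/
def VirtAbelian (K : Type) [Group K] : Prop :=
  ∃ A : Subgroup K, A.FiniteIndex ∧ ∀ x ∈ A, ∀ y ∈ A, x * y = y * x

/-- The alternative: for every homomorphism `φ` from a finitely presented group `K` to `G`, `K`
contains a nonabelian free group or the image of `φ` is virtually abelian. -/
def Alternative (G : Type) [Group G] : Prop :=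
  ∀ (K : Type) [Group K], Group.IsFinitelyPresented K → ∀ φ : K →* G,
    HasFree K ∨ VirtAbelian φ.range

/-- The growth function with respect to `S`: the number of elements of word length at most `n`. -/
noncomputable def growth {G : Type} [Group G] (S : Finset G) (n : ℕ) : ℕ :=
  (((S : Set G) ∪ (S : Set G)⁻¹ ∪ {1}) ^ n).ncard

theorem alternative_iff (G : Type) [Group G] : Alternative G ↔ Pool.Agent.N59.TT.TT G := by
  constructor
  · intro h K _ hK hF φ
    exact (h K hK φ).resolve_left hF
  · intro h K _ hK φ
    by_cases hF : HasFree K
    · exact Or.inl hF
    · exact Or.inr (h K hK hF φ)

theorem alternative_eq : Alternative = Pool.Agent.N59.TT.TT := by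
  funext G i
  exact propext (alternative_iff G)

/-- 1. The class of the groups with the alternative contains `ℤ` and is closed under subgroups, finite
products, free products, overgroups of finite index and directed colimits (`Closed`).
2. If `G` acts on a tree, the stabilizers of the vertices are in the class, and for each edge there is a
homomorphism from `G` to a group in the class which is injective on the stabilizer of the edge, then `G`
is in the class.
3. Every group of automorphisms of a regular rooted tree of finite valency generated by automorphisms which
are of degree at most `n` (`IsPol n`) for some `n`, or finite-state of polynomial activity, is in the class.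
4. Every group of automorphisms of a rooted tree generated by groups `H n` and groups `D i n` directed along
rays which are regular for `H` (as in MP_6374fb_al.DirectedExtensions) is in the class if the `H n` and the `D i n`
are.
5. Let `H` be a finitely presented subgroup of a group in the class, `S` a finite generating set of `H`.
Then `H` contains a nonabelian free group or is virtually abelian; if all elements of `H` are of finite order
then `H` is finite; if the growth function of `H` is bounded below by no exponential function then it is bounded
above by a polynomial. -/
theorem result :
    Closed Alternative ∧
    (∀ (G V : Type) [Group G] [MulAction G V] (Γ : SimpleGraph V), Γ.IsTree →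
      (∀ (g : G) (u v : V), Γ.Adj u v → Γ.Adj (g • u) (g • v)) →
      (∀ v : V, Alternative (MulAction.stabilizer G v)) →
      (∀ u v : V, Γ.Adj u v → ∃ (P : Type) (_ : Group P) (f : G →* P), Alternative P ∧
        ∀ g : G, g • u = u → g • v = v → f g = 1 → g = 1) → Alternative G) ∧
    (∀ (X : Type), Finite X → ∀ (G : Type) [Group G] (f : G →* Equiv.Perm (List X)),
      Function.Injective f → ∀ S : Set G, Subgroup.closure S = ⊤ → (∀ s ∈ S, IsTree (f s)) →
      (∀ s ∈ S, (∃ n, IsPol n (f s)) ∨ ((Sections (f s)).Finite ∧ PolActivity (f s))) →
      Alternative G) ∧
    (∀ (X : Type) (A : ℕ → Set X), (∀ n, (A n).Finite) → ∀ (H : ℕ → Subgroup (T X)) (k : ℕ)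
      (ρ : Fin k → ℕ → X) (D : Fin k → ℕ → Subgroup (T X)), RegularData A H ρ D →
      (∀ n, Alternative (H n)) → (∀ i n, Alternative (D i n)) → ∀ (K : Type) [Group K],
      GeneratedBy A (fun n => {r | ∃ g ∈ H n ⊔ ⨆ i, D i n, ∀ w, r w = g.1 w}) K →
      Alternative K) ∧
    ∀ (G : Type) [Group G], Alternative G → ∀ (H : Subgroup G) (S : Finset H),
      Group.IsFinitelyPresented H → Subgroup.closure (S : Set H) = ⊤ →
      (HasFree H ∨ VirtAbelian H) ∧
      ((∀ h : H, ∃ n : ℕ, 0 < n ∧ h ^ n = 1) → Finite H) ∧
      ((∀ c : ℝ, 0 < c → ∃ n : ℕ, (growth S n : ℝ) < Real.exp (c * n)) →
        ∃ D : ℕ, ∀ n : ℕ, growth S n ≤ D * (n + 1) ^ D) := by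
  rw [alternative_eq]
  refine ⟨Pool.Agent.N59.TT.closed_TT, ?_, ?_, ?_, ?_⟩
  · intro G V _ _ Γ hΓ hact hV hE
    exact Pool.Agent.N59.TT.edges hΓ hact hV hE
  · intro X hX G _ f hf S hS hT hB
    exact Pool.Agent.N59.TT.pol_TT X hX G f hf S hS hT hB
  · intro X A hA H k ρ D h hH hD K _ hK
    exact Pool.Agent.Results.MP_6374fb_al.DirectedExtensions.result Pool.Agent.N59.TT.TT
      Pool.Agent.N59.TT.closed_TT X A hA H k ρ D h hH hD K hK
  · intro G _ hG H S hH hS
    have h1 : HasFree H ∨ VirtAbelian H := by
      by_cases hF : HasFree H
      · exact Or.inl hF
      · have h2 := hG H hH hF H.subtype
        exact Or.inr (Pool.Agent.N59.TT.VAb.of_inj H.subtype.rangeRestrict (fun a b hab => by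
          have h3 : (a : G) = b := congrArg (fun z : H.subtype.range => (z : G)) hab
          exact Subtype.ext h3) h2)
    have hfg : Group.FG H := Group.fg_iff.2 ⟨S, hS, S.finite_toSet⟩
    refine ⟨h1, fun ht => ?_, fun hg => ?_⟩
    · rcases h1 with ⟨f, hf⟩ | h1
      · exfalso
        obtain ⟨n, hn, h2⟩ := ht (f (FreeGroup.of 0))
        rw [← map_pow, ← map_one f] at h2
        have h3 := hf h2
        have h4 : (FreeGroup.of (0 : Fin 2)) = 1 := (pow_eq_one_iff_left hn.ne').1 h3
        exact FreeGroup.of_ne_one 0 h4
      · exact Pool.Agent.N607.TTTOR.main H hfg h1 ht
    · rcases h1 with h1 | h1
      · exfalso
        obtain ⟨c, hc, h2⟩ := Pool.Agent.N456.TT_GE.main H S hS h1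
        obtain ⟨n, hn⟩ := hg c hc
        exact absurd (h2 n) (not_le.2 hn)
      · exact Pool.Agent.N674.TTGP.main H S hS h1

end Pool.Agent.Results.MP_65b575_al.FreeOrVirtuallyAbelian
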