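import Pool.Agent.N6.W.Semi

/-!
# Finitely presented groups of intermediate growth and full groups of `ℤ`-actions

All known groups of intermediate growth which are related to Grigorchuk's groups act on the line
`ℤ` by permutations of bounded displacement, and many of them lie in topological full groups of
`ℤ`-actions. We show that finitely presented groups of intermediate growth (monsters of
type (7)) do not occur there: their images in such groups are virtually abelian.

More generally let `N` be a finitely generated normal subgroup of a finitely presented group `G`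
such that the commutator subgroups of the subgroups of finite index of `N` are finitely generated.
This holds if `N` has no free subsemigroup of rank two, and if `N` is not virtually indicable. Then
the images of `N` under the homomorphisms from `G` to full groups of `ℤ`-actions are virtually
abelian, and they are finite if `N` is not virtually indicable.

The proof: a long orbit of `G` is cut at two places which look the same, and its left part is
continued periodically to the right. On the periodic part the commutator subgroup of a suitable
subgroup of finite index of `N` is trivial, hence its finitely many generators fix all points far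
on the right; as it is normal in `G`, it fixes the points of the left part as well.
-/

set_option autoImplicit false

open scoped Pointwise

namespace Pool.Agent.Results.MP_65b575_al.IntermediateGrowth

universe u v

/-- A subgroup of finite index has a nonzero homomorphism to `ℤ`. -/
def VirtuallyIndicable (G : Type u) [Group G] : Prop :=
  ∃ H : Subgroup G, H.FiniteIndex ∧ ∃ f : H →* Multiplicative ℤ, f ≠ 1

/-- `σ` moves every point by a power of `T` with exponent of absolute value at most `m`. -/
def PowersUpTo {X : Type v} (T : Equiv.Perm X) (m : ℕ) (σ : Equiv.Perm X) : Prop :=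
  ∀ x, ∃ n : ℤ, |n| ≤ m ∧ σ x = (T ^ n) x

/-- The commutator subgroups of the subgroups of finite index are finitely generated. -/
def CommutatorsFG (N : Type u) [Group N] : Prop :=
  ∀ K : Subgroup N, K.FiniteIndex → (⁅K, K⁆ : Subgroup N).FG

/-- The value of a word in `a` (for `false`) and `b` (for `true`). -/
def word {G : Type u} [Group G] (a b : G) (l : List Bool) : G :=
  (l.map fun t => if t then b else a).prod

/-- No two elements generate a free semigroup of rank two. -/
def NoFreeSemigroup (G : Type u) [Group G] : Prop :=
  ∀ a b : G, ∃ l l' : List Bool, l ≠ l' ∧ word a b l = word a b l'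

/-- The growth function with respect to `S`: the number of elements of word length at most `n`. -/
noncomputable def growth {G : Type u} [Group G] (S : Finset G) (n : ℕ) : ℕ :=
  (((S : Set G) ∪ (S : Set G)⁻¹ ∪ {1}) ^ n).ncard

/-- Type (7): for a finite generating set `S` the growth function is bounded above by no polynomial
and bounded below by no exponential function `e ^ (c r)`, `c > 0`. -/
def Type7 (G : Type u) [Group G] : Prop :=
  ∃ S : Finset G, Subgroup.closure (S : Set G) = ⊤ ∧
    (∀ C d : ℕ, ∃ r : ℕ, C * (r + 1) ^ d < growth S r) ∧
    ∀ c : ℝ, 0 < c → ∃ r : ℕ, (growth S r : ℝ) < Real.exp (c * r)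

/-- Let `G` be a finitely presented group.

(1) Let `N` be a finitely generated normal subgroup of `G` such that the commutator subgroups of
the subgroups of finite index of `N` are finitely generated, or such that `N` has no free
subsemigroup of rank two, or such that `N` is not virtually indicable. Let `T` be a permutation
of a set `X` and `f` a homomorphism from `G` to the group of the permutations `x ↦ T ^ n(x) x`
with `n` bounded. Then `f(N)` is virtually abelian, and finite if `N` is not virtually indicable.

(2) If `G` is a monster of type (7), then `f(G)` is virtually abelian and `f` is not injective.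

(3) If `G` is a monster of type (7), then the same holds for the homomorphisms to the topological
full group of a homeomorphism `T` of a compact space `X`. -/
theorem result (G : Type u) [Group G] [Group.IsFinitelyPresented G] :
    (∀ N : Subgroup G, N.Normal → N.FG →
      CommutatorsFG N ∨ NoFreeSemigroup N ∨ ¬ VirtuallyIndicable N →
      ∀ (X : Type v) (T : Equiv.Perm X) (f : G →* Equiv.Perm X),
        (∀ g, ∃ m : ℕ, PowersUpTo T m (f g)) →
        (∃ A : Subgroup N, A.FiniteIndex ∧ ∀ a ∈ A, ∀ b ∈ A, f a * f b = f b * f a) ∧
        (¬ VirtuallyIndicable N → (f '' N).Finite)) ∧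
    (Type7 G → ∀ (X : Type v) (T : Equiv.Perm X) (f : G →* Equiv.Perm X),
      (∀ g, ∃ m : ℕ, PowersUpTo T m (f g)) →
      (∃ A : Subgroup G, A.FiniteIndex ∧ ∀ a ∈ A, ∀ b ∈ A, f a * f b = f b * f a) ∧
      ¬ Function.Injective f) ∧
    (Type7 G → ∀ (X : Type v) [TopologicalSpace X] [CompactSpace X] (T : X ≃ₜ X)
      (f : G →* (X ≃ₜ X)),
      (∀ g, ∃ c : X → ℤ, Continuous c ∧ ∀ x, f g x = (T ^ c x) x) →
      (∃ A : Subgroup G, A.FiniteIndex ∧ ∀ a ∈ A, ∀ b ∈ A, f a * f b = f b * f a) ∧
      ¬ Function.Injective f) := by
  have h7 : Type7 G → ∀ (X : Type v) (T : Equiv.Perm X) (f : G →* Equiv.Perm X),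
      (∀ g, ∃ m : ℕ, PowersUpTo T m (f g)) →
      (∃ A : Subgroup G, A.FiniteIndex ∧ ∀ a ∈ A, ∀ b ∈ A, f a * f b = f b * f a) ∧
      ¬ Function.Injective f := by
    rintro ⟨S, hS, hpoly, hexp⟩ X T f hf
    obtain ⟨A, hA, hab⟩ := N6.W.virt_ab_top G (N6.W.no_freePair S hS hexp) X T f hf
    exact ⟨⟨A, hA, hab⟩, N6.W.not_injective_of_type7 G f A hA hab S hpoly⟩
  refine ⟨?_, h7, ?_⟩
  · intro N hNn hNfg hN X T f hf
    have hNfg' : Group.FG N := (Group.fg_iff_subgroup_fg N).2 hNfg
    have hc : ∀ K : Subgroup N, K.FiniteIndex → (⁅K, K⁆ : Subgroup N).FG := by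
      rcases hN with h | h | h
      · exact h
      · intro K hK
        refine N6.W.commutator_sub_fg hNfg' (fun a b => ?_) K hK
        obtain ⟨l, l', hne, he⟩ := h a b
        exact N6.W.homog a b l l' hne he
      · intro K hK
        exact N6.W.commutator_fg_of_not_vi hNfg' h K hK
    obtain ⟨A, hA, hab⟩ := N6.W.virt_ab G N hNn hNfg hc X T f hf
    refine ⟨⟨A, hA, hab⟩, fun hvi => ?_⟩
    have h1 := N6.W.finite_range_of_virt_ab hNfg' hvi (f.comp N.subtype) A hA hab
    refine h1.subset ?_
    rintro _ ⟨x, hx, rfl⟩
    exact ⟨⟨x, hx⟩, rfl⟩
  · intro h X _ _ T f hf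
    let ι : (X ≃ₜ X) →* Equiv.Perm X :=
      { toFun := Homeomorph.toEquiv
        map_one' := rfl
        map_mul' := fun _ _ => rfl }
    have hι : Function.Injective ι := Homeomorph.toEquiv_injective
    have hwob : ∀ g, ∃ m : ℕ, PowersUpTo (ι T) m ((ι.comp f) g) := by
      intro g
      obtain ⟨c, hc, e⟩ := hf g
      obtain ⟨m, hm⟩ : ∃ m : ℕ, ∀ x, |c x| ≤ m := by
        have h2 : (Set.range c).Finite := by
          have h3 : IsCompact (Set.range c) := isCompact_range hc
          exact h3.finite_of_discrete
        obtain ⟨b, hb⟩ := (h2.image (fun z : ℤ => z.natAbs)).bddAbove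
        refine ⟨b, fun x => ?_⟩
        have h4 : (c x).natAbs ≤ b := hb ⟨c x, ⟨x, rfl⟩, rfl⟩
        rw [← Int.natCast_natAbs]
        exact_mod_cast h4
      refine ⟨m, fun x => ⟨c x, hm x, ?_⟩⟩
      rw [← map_zpow]
      exact e x
    obtain ⟨⟨A, hA, hab⟩, hinj⟩ := h7 h X (ι T) (ι.comp f) hwob
    refine ⟨⟨A, hA, fun a ha b hb => hι ?_⟩, fun hf' => hinj (hι.comp hf')⟩
    rw [map_mul, map_mul]
    exact hab a ha b hb

end Pool.Agent.Results.MP_65b575_al.IntermediateGrowth
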