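import Pool.Agent.N6.W.Slow
import Pool.Agent.N6.W.Types
import Pool.Agent.R673.MG.Types

/-!
# Finitely presented monsters and full groups of actions of slow growth

Let `G` be a finitely presented group and `L` a finitely generated subgroup such that every
homomorphism from a finite index subgroup `K` of `G` to `ℤ` is trivial on `K ∩ L` (`Unseen L`; for
`L = G`: `G` is not virtually indicable). Let `Γ` be a group acting on a set `X` with slow growth
(for instance: linear growth of all orbits, as for `Γ = ℤ` and for the groups generated by bounded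
automata on the boundary of their tree). Then every homomorphism from `G` to the group of
permutations of `X` which coincide pointwise with elements of a finite subset of `Γ` maps `L` to a
finite group, and so does every homomorphism to the topological full group of `Γ` if `X` is compact.
Conversely a virtually indicable group has an infinite image in the wobbling group of `ℤ`.
Finitely presented monsters of types (2)-(6) are not virtually indicable.

The proof uses the lemma `gap_sub` of the library `Pool/Agent/H71R2/Thin` of the starting files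
(Schreier graphs of finitely presented groups, cut and glued along small boundaries of balls).
This theorem contains `WobblingGroup` (now `Pool/Agent/N6/Shelf/WobblingGroup.lean`), where `Γ = ℤ`.
-/

set_option autoImplicit false

open scoped Pointwise Topology

namespace Pool.Agent.Results.MP_65b575_al.SlowActions

universe u v w

/-- Some finite index subgroup has a nontrivial homomorphism to `ℤ`. -/
def VirtuallyIndicable (G : Type u) [Group G] : Prop :=
  ∃ H : Subgroup G, H.FiniteIndex ∧ ∃ f : H →* Multiplicative ℤ, f ≠ 1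

/-- Every homomorphism from a finite index subgroup `K` of `G` to `ℤ` is trivial on `K ∩ L`. -/
def Unseen {G : Type u} [Group G] (L : Subgroup G) : Prop :=
  ∀ K : Subgroup G, K.FiniteIndex → ∀ (φ : K →* Multiplicative ℤ) (k : K), (k : G) ∈ L → φ k = 1

/-- The points `γ x`, where `γ` is a product of `n` elements of `E`. -/
def Reach {Γ : Type w} {X : Type v} [Group Γ] [MulAction Γ X] (E : Set Γ) (n : ℕ) (x : X) :
    Set X :=
  {y | ∃ γ ∈ E ^ n, y = γ • x}

/-- Slow growth at the points of `A`: for all finite `E` and all `δ > 0` there are arbitrarily large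
`n` such that `E ^ n x` has at most `δ n log n / log log n` points for all `x ∈ A`. -/
def SlowOn (Γ : Type w) {X : Type v} [Group Γ] [MulAction Γ X] (A : Set X) : Prop :=
  ∀ E : Set Γ, E.Finite → ∀ δ : ℝ, 0 < δ → ∀ n₀ : ℕ, ∃ n : ℕ, n₀ ≤ n ∧ ∀ x ∈ A,
    ((Reach E n x).ncard : ℝ) ≤ δ * (n * Real.log n / Real.log (Real.log n))

/-- At each point the permutation `σ` coincides with an element of a fixed finite subset of `Γ`. -/
def Piecewise (Γ : Type w) {X : Type v} [Group Γ] [MulAction Γ X] (σ : Equiv.Perm X) : Prop :=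
  ∃ E : Set Γ, E.Finite ∧ ∀ x, ∃ γ ∈ E, σ x = γ • x

/-- The homeomorphism `σ` coincides locally with elements of `Γ`. -/
def Locally (Γ : Type w) {X : Type v} [Group Γ] [MulAction Γ X] [TopologicalSpace X]
    (σ : X ≃ₜ X) : Prop :=
  ∀ x, ∃ γ : Γ, ∀ᶠ y in 𝓝 x, σ y = γ • y

/-- Type (2). -/
def Type2 (G : Type u) [Group G] : Prop :=
  ∃ n : ℕ, 1 ≤ n ∧ ∀ g : G, g ^ n = 1

/-- Type (3). -/
def Type3 (G : Type u) [Group G] : Prop :=
  ¬ IsCyclic G ∧ ∀ H : Subgroup G, H ≠ ⊤ → IsCyclic H

/-- Type (4). -/
def Type4 (G : Type u) [Group G] : Prop :=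
  ∃ p : ℕ, p.Prime ∧ ∀ H : Subgroup G, H ≠ ⊥ → H ≠ ⊤ → IsCyclic H ∧ Nat.card H = p

/-- Type (5). -/
def Type5 (G : Type u) [Group G] : Prop :=
  ∀ g : G, ∀ m : ℕ, 1 ≤ m → ∃ h : G, h ^ m = g

/-- Type (6). -/
def Type6 (G : Type u) [Group G] : Prop :=
  Finite (ConjClasses G)

theorem type4_torsion {G : Type u} [Group G] (h : Type4 G) :
    ¬ N6.W.VI G ∨ IsCyclic G := by
  obtain ⟨p, hp, h⟩ := h
  by_cases hc : IsCyclic G
  · exact Or.inr hc
  · refine Or.inl (N6.W.not_vi_of_torsion (fun g => ?_))
    by_cases hg : g = 1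
    · exact ⟨1, le_rfl, by simp [hg]⟩
    · have h1 : Subgroup.zpowers g ≠ ⊥ := by
        rw [Ne, Subgroup.zpowers_eq_bot]
        exact hg
      have h2 : Subgroup.zpowers g ≠ ⊤ := by
        intro e
        apply hc
        refine ⟨g, fun x => ?_⟩
        have hx : x ∈ Subgroup.zpowers g := by rw [e]; trivial
        exact hx
      obtain ⟨-, h3⟩ := h _ h1 h2
      rw [Nat.card_zpowers] at h3
      exact ⟨p, hp.one_le, by rw [← h3, pow_orderOf_eq_one]⟩

theorem type4_not_cyclic {G : Type u} [Group G] [Infinite G] (h : Type4 G) : ¬ IsCyclic G := by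
  obtain ⟨p, hp, h⟩ := h
  rintro ⟨c, hc⟩
  have hcf : ¬ IsOfFinOrder c := by
    intro hf
    have h1 : (Set.univ : Set G).Finite := by
      refine hf.finite_zpowers.subset ?_
      intro g _
      obtain ⟨a, ha⟩ := hc g
      exact ⟨a, ha⟩
    exact Set.infinite_univ h1
  have h1 : Subgroup.zpowers (c ^ (2 : ℤ)) ≠ ⊥ := by
    intro e
    rw [Subgroup.zpowers_eq_bot] at e
    have := R673.MG.zpow_inj_of hcf (e.trans (zpow_zero c).symm)
    omega
  have h2 : Subgroup.zpowers (c ^ (2 : ℤ)) ≠ ⊤ := by
    intro e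
    have h3 : c ∈ Subgroup.zpowers (c ^ (2 : ℤ)) := by rw [e]; trivial
    obtain ⟨a, ha⟩ := h3
    have ha' : (c ^ (2 : ℤ)) ^ a = c ^ (1 : ℤ) := by rw [zpow_one]; exact ha
    rw [← zpow_mul] at ha'
    have := R673.MG.zpow_inj_of hcf ha'
    omega
  obtain ⟨-, h3⟩ := h _ h1 h2
  rw [Nat.card_zpowers] at h3
  have h4 : IsOfFinOrder (c ^ (2 : ℤ)) := by
    rw [← orderOf_pos_iff, h3]
    exact hp.pos
  apply hcf
  obtain ⟨n, hn, hn1⟩ := isOfFinOrder_iff_pow_eq_one.1 h4
  rw [← zpow_natCast, ← zpow_mul] at hn1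
  have := R673.MG.zpow_inj_of hcf (hn1.trans (zpow_zero c).symm)
  omega

/-- (1) Let `L` be a finitely generated subgroup of a finitely presented group `G` not seen by
virtual homomorphisms to `ℤ`. If `G` maps to the full group of an action of a group `Γ`, the orbits
under `L` of the points of slow growth are finite (of bounded size, if the growth is uniformly
slow), and if the growth of the action is slow, then the image of `L` in the full group
(topological full group, for compact `X`) is finite. (2) `G` is virtually indicable if and only if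
it has an infinite image in the wobbling group of `ℤ`. (3) If it is not virtually indicable, its
images in full groups of actions of slow growth are finite, the orbits of points of slow growth in
all actions of `G` are finite, and its orbits of linear growth are bounded uniformly. (4) The
monsters of types (2)-(6) are not virtually indicable. (5) Linear growth is slow. -/
theorem result (G : Type u) [Group G] [Group.IsFinitelyPresented G] :
    (∀ L : Subgroup G, L.FG → Unseen L →
      ∀ (Γ : Type w) (X : Type v) [Group Γ] [MulAction Γ X],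
        (∀ A : Set X, SlowOn Γ A → ∀ f : G →* Equiv.Perm X, (∀ g, Piecewise Γ (f g)) →
          ∃ N : ℕ, ∀ x ∈ A, {y | ∃ g ∈ L, y = f g x}.encard ≤ N) ∧
        (SlowOn Γ (Set.univ : Set X) →
          (∀ f : G →* Equiv.Perm X, (∀ g, Piecewise Γ (f g)) → (f '' (L : Set G)).Finite) ∧
          (∀ [TopologicalSpace X] [CompactSpace X] (f : G →* (X ≃ₜ X)),
            (∀ g, Locally Γ (f g)) → (f '' (L : Set G)).Finite))) ∧
    (VirtuallyIndicable G ↔ ∃ f : G →* Equiv.Perm ℤ,
      (∀ g, ∃ m : ℕ, ∀ p, |f g p - p| ≤ m) ∧ (Set.range f).Infinite) ∧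
    (¬ VirtuallyIndicable G →
      (∀ (Γ : Type w) (X : Type v) [Group Γ] [MulAction Γ X], SlowOn Γ (Set.univ : Set X) →
        ∀ f : G →* Equiv.Perm X, (∀ g, Piecewise Γ (f g)) → (Set.range f).Finite) ∧
      (∀ (Y : Type v) [MulAction G Y] (A : Set Y), SlowOn G A →
        ∃ N : ℕ, ∀ y ∈ A, (MulAction.orbit G y).encard ≤ N) ∧
      (∀ S : Set G, S.Finite → Subgroup.closure S = ⊤ → ∀ C : ℕ, ∃ N : ℕ,
        ∀ (Y : Type v) [MulAction G Y] (y : Y),
          (∀ n : ℕ, (Reach (S ∪ S⁻¹ ∪ {1}) n y).ncard ≤ C * (n + 1)) →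
          (MulAction.orbit G y).encard ≤ N)) ∧
    (Infinite G → Type2 G ∨ Type3 G ∨ Type4 G ∨ Type5 G ∨ Type6 G →
      ¬ VirtuallyIndicable G) ∧
    (∀ (Γ : Type w) (X : Type v) [Group Γ] [MulAction Γ X] (A : Set X),
      (∀ E : Set Γ, E.Finite → ∃ C : ℕ, ∀ n : ℕ, ∀ x ∈ A,
        (Reach E n x).ncard ≤ C * (n + 1)) → SlowOn Γ A) := by
  have hseen : ∀ L : Subgroup G, Unseen L → ¬ H71R2.Thin.Seen L := by
    rintro L hL ⟨K, hK, φ, k, hk, hne⟩
    exact hne (hL K hK φ k hk)
  refine ⟨fun L hLfg hL Γ X _ _ => ⟨fun A hA f hf => ?_, fun hs => ⟨fun f hf => ?_, fun f hf => ?_⟩⟩,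
    ⟨fun h => N6.W.exists_of_vi h, ?_⟩,
    fun hG => ⟨fun Γ X _ _ hs f hf => ?_, fun Y _ A hA => ?_, ?_⟩, ?_, ?_⟩
  · exact N6.W.slow_bound G L hLfg (hseen L hL) Γ X A hA f hf
  · exact N6.W.slow_finite G L hLfg (hseen L hL) Γ X hs f hf
  · exact N6.W.slow_finite_top G L hLfg (hseen L hL) Γ X hs f hf
  · rintro ⟨f, hf, hinf⟩
    by_contra hG
    apply hinf
    refine N6.W.finite_of_not_vi G hG ℤ (Equiv.addRight 1) f (fun g => ?_)
    obtain ⟨m, hm⟩ := hf g
    exact ⟨m, N6.W.wob_int.2 hm⟩
  · obtain ⟨S, hSf, hS⟩ := N6.W.exists_gen G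
    have hfg : (⊤ : Subgroup G).FG := ⟨hSf.toFinset, by rw [hSf.coe_toFinset]; exact hS⟩
    have h1 := N6.W.slow_finite G ⊤ hfg (N6.W.not_seen_top hG) Γ X hs f hf
    rwa [Subgroup.coe_top, Set.image_univ] at h1
  · exact N6.W.slow_orbit G hG Y A hA
  · intro S hSf hS C
    exact N6.W.linear_bound G hG S hSf hS C
  · rintro hinf (h | h | h | h | h)
    · obtain ⟨n, hn, h⟩ := h
      exact N6.W.not_vi_of_torsion (fun g => ⟨n, hn, h g⟩)
    · exact N6.W.not_vi_of_no_fi (R673.MG.cyclic_no_fi h.1 h.2)
    · rcases type4_torsion h with h' | h'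
      · exact h'
      · exact absurd h' (type4_not_cyclic h)
    · exact N6.W.not_vi_of_no_fi (R673.MG.complete_no_fi h)
    · exact N6.W.not_vi_of_finite_conj h
  · intro Γ X _ _ A h
    exact N6.W.slow_of_linear A h

end Pool.Agent.Results.MP_65b575_al.SlowActions
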