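import Pool.Agent.N6.W.Betti
import Pool.Agent.N6.W.Types
import Pool.Agent.R673.MG.Types

/-!
# Monsters inside finitely presented groups with slow actions

Let `G` be a finitely presented group and `f` a homomorphism from `G` to the full group (or, for
compact `X`, the topological full group) of an action of slow growth, and let `L` be a finitely
generated subgroup of `G`. If `L` is not virtually indicable (for instance torsion, or a monster of
one of the types (2)-(6), not necessarily finitely presented), then `f(L)` is finite. If the first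
Betti numbers of the finite index subgroups of `L` are bounded and their commutator subgroups are
finitely generated (for instance if `L` has no free subsemigroup of rank 2), then `f(L)` is virtually
abelian; so `f` is not injective on `L` if `L` is a monster of type (7) with bounded first Betti
numbers of finite index subgroups.

So, although Grigorchuk's group and the simple torsion groups of Nekrashevych have faithful actions
of linear growth, no finitely presented group which contains them has a faithful action by
elements of such a full group.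

Proof: in a finite index subgroup `K` of `L` with maximal first Betti number the commutator subgroup
is not seen by homomorphisms from finite index subgroups of `G` to `ℤ`; by `SlowActions` it has a
finite image.
-/

set_option autoImplicit false

open scoped Pointwise Topology

namespace Pool.Agent.Results.MP_65b575_al.SubgroupsOfSlowGroups

universe u v w

/-- Some finite index subgroup has a nontrivial homomorphism to `ℤ`. -/
def VirtuallyIndicable (G : Type u) [Group G] : Prop :=
  ∃ H : Subgroup G, H.FiniteIndex ∧ ∃ f : H →* Multiplicative ℤ, f ≠ 1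

/-- The first Betti number: the rank of the abelianization. -/
noncomputable def bettiOne (K : Type u) [Group K] : ℕ :=
  Module.finrank ℤ (Additive (Abelianization K))

/-- The first Betti numbers of the finite index subgroups of `L` are bounded. -/
def BoundedBetti (L : Type u) [Group L] : Prop :=
  ∃ b : ℕ, ∀ K : Subgroup L, K.FiniteIndex → bettiOne K ≤ b

/-- The commutator subgroups of the finite index subgroups are finitely generated. -/
def CommutatorsFG (L : Type u) [Group L] : Prop :=
  ∀ K : Subgroup L, K.FiniteIndex → (⁅K, K⁆ : Subgroup L).FG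

/-- The product of the letters `a` (for `false`) and `b` (for `true`) along the list `l`. -/
def word {G : Type u} [Group G] (a b : G) (l : List Bool) : G :=
  (l.map fun t => if t then b else a).prod

/-- No two elements generate a free semigroup of rank two. -/
def NoFreeSemigroup (G : Type u) [Group G] : Prop :=
  ∀ a b : G, ∃ l l' : List Bool, l ≠ l' ∧ word a b l = word a b l'

/-- Slow growth: for all finite `E` and all `δ > 0` there are arbitrarily large `n` such that
`E ^ n x` has at most `δ n log n / log log n` points for all `x`. -/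
def Slow (Γ : Type w) (X : Type v) [Group Γ] [MulAction Γ X] : Prop :=
  ∀ E : Set Γ, E.Finite → ∀ δ : ℝ, 0 < δ → ∀ n₀ : ℕ, ∃ n : ℕ, n₀ ≤ n ∧ ∀ x : X,
    (({y | ∃ γ ∈ E ^ n, y = γ • x} : Set X).ncard : ℝ) ≤
      δ * (n * Real.log n / Real.log (Real.log n))

/-- At each point the permutation `σ` coincides with an element of a fixed finite subset of `Γ`. -/
def Piecewise (Γ : Type w) {X : Type v} [Group Γ] [MulAction Γ X] (σ : Equiv.Perm X) : Prop :=
  ∃ E : Set Γ, E.Finite ∧ ∀ x, ∃ γ ∈ E, σ x = γ • x

/-- The homeomorphism `σ` coincides locally with elements of `Γ`. -/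
def Locally (Γ : Type w) {X : Type v} [Group Γ] [MulAction Γ X] [TopologicalSpace X]
    (σ : X ≃ₜ X) : Prop :=
  ∀ x, ∃ γ : Γ, ∀ᶠ y in 𝓝 x, σ y = γ • y

/-- The growth function with respect to `S`: the number of elements of word length at most `n`. -/
noncomputable def growth {G : Type u} [Group G] (S : Finset G) (n : ℕ) : ℕ :=
  (((S : Set G) ∪ (S : Set G)⁻¹ ∪ {1}) ^ n).ncard

/-- Type (2). -/
def Type2 (G : Type u) [Group G] : Prop :=
  ∃ n : ℕ, 1 ≤ n ∧ ∀ g : G, g ^ n = 1

/-- Type (3). -/
def Type3 (G : Type u) [Group G] : Prop :=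
  ¬ IsCyclic G ∧ ∀ H : Subgroup G, H ≠ ⊤ → IsCyclic H

/-- Type (4). -/
def Type4 (G : Type u) [Group G] : Prop :=
  ∃ p : ℕ, p.Prime ∧ ∀ H : Subgroup G, H ≠ ⊥ → H ≠ ⊤ → IsCyclic H ∧ Nat.card H = p

/-- Type (5). -/
def Type5 (G : Type u) [Group G] : Prop :=
  ∀ g : G, ∀ m : ℕ, 1 ≤ m → ∃ h : G, h ^ m = g

/-- Type (6). -/
def Type6 (G : Type u) [Group G] : Prop :=
  Finite (ConjClasses G)

/-- Type (7): the growth is bounded by no polynomial and, for each `c > 0`, it is somewhere below
`e ^ (c r)`. -/
def Type7 (G : Type u) [Group G] : Prop :=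
  ∃ S : Finset G, Subgroup.closure (S : Set G) = ⊤ ∧
    (∀ C d : ℕ, ∃ r : ℕ, C * (r + 1) ^ d < growth S r) ∧
    ∀ c : ℝ, 0 < c → ∃ r : ℕ, (growth S r : ℝ) < Real.exp (c * r)

/-- The conclusions for the subgroup `L` and the homomorphism `f`: (a) if `L` is not virtually
indicable, then `f(L)` is finite; (b) if the Betti numbers are bounded and the commutator
subgroups finitely generated, or there is no free subsemigroup, then `f(L)` is virtually abelian;
(c) `f` is not injective on `L` if `L` is a monster of one of the types (2)-(6), or of type (7)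
with bounded Betti numbers. -/
def Tame {G : Type u} [Group G] (L : Subgroup G) {P : Type v} [Group P] (f : G →* P) : Prop :=
  (¬ VirtuallyIndicable L → (f '' (L : Set G)).Finite) ∧
  (BoundedBetti L → CommutatorsFG L ∨ NoFreeSemigroup L →
    ∃ A : Subgroup L, A.FiniteIndex ∧ ∀ a ∈ A, ∀ b ∈ A, f a * f b = f b * f a) ∧
  (Infinite L → Type2 L ∨ Type3 L ∨ Type4 L ∨ Type5 L ∨ Type6 L ∨ (Type7 L ∧ BoundedBetti L) →
    ¬ Set.InjOn f (L : Set G))

theorem type4_torsion {G : Type u} [Group G] (h : Type4 G) :
    ¬ N6.W.VI G ∨ IsCyclic G := by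
  obtain ⟨p, hp, h⟩ := h
  by_cases hc : IsCyclic G
  · exact Or.inr hc
  · refine Or.inl (N6.W.not_vi_of_torsion (fun g => ?_))
    by_cases hg : g = 1
    · exact ⟨1, le_rfl, by simp [hg]⟩
    · have h1 : Subgroup.zpowers g ≠ ⊥ := by
        rw [Ne, Subgroup.zpowers_eq_bot]
        exact hg
      have h2 : Subgroup.zpowers g ≠ ⊤ := by
        intro e
        apply hc
        refine ⟨g, fun x => ?_⟩
        have hx : x ∈ Subgroup.zpowers g := by rw [e]; trivial
        exact hx
      obtain ⟨-, h3⟩ := h _ h1 h2
      rw [Nat.card_zpowers] at h3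
      exact ⟨p, hp.one_le, by rw [← h3, pow_orderOf_eq_one]⟩

theorem type4_not_cyclic {G : Type u} [Group G] [Infinite G] (h : Type4 G) : ¬ IsCyclic G := by
  obtain ⟨p, hp, h⟩ := h
  rintro ⟨c, hc⟩
  have hcf : ¬ IsOfFinOrder c := by
    intro hf
    have h1 : (Set.univ : Set G).Finite := by
      refine hf.finite_zpowers.subset ?_
      intro g _
      obtain ⟨a, ha⟩ := hc g
      exact ⟨a, ha⟩
    exact Set.infinite_univ h1
  have h1 : Subgroup.zpowers (c ^ (2 : ℤ)) ≠ ⊥ := by
    intro e
    rw [Subgroup.zpowers_eq_bot] at e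
    have := R673.MG.zpow_inj_of hcf (e.trans (zpow_zero c).symm)
    omega
  have h2 : Subgroup.zpowers (c ^ (2 : ℤ)) ≠ ⊤ := by
    intro e
    have h3 : c ∈ Subgroup.zpowers (c ^ (2 : ℤ)) := by rw [e]; trivial
    obtain ⟨a, ha⟩ := h3
    have ha' : (c ^ (2 : ℤ)) ^ a = c ^ (1 : ℤ) := by rw [zpow_one]; exact ha
    rw [← zpow_mul] at ha'
    have := R673.MG.zpow_inj_of hcf ha'
    omega
  obtain ⟨-, h3⟩ := h _ h1 h2
  rw [Nat.card_zpowers] at h3
  have h4 : IsOfFinOrder (c ^ (2 : ℤ)) := by
    rw [← orderOf_pos_iff, h3]
    exact hp.pos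
  apply hcf
  obtain ⟨n, hn, hn1⟩ := isOfFinOrder_iff_pow_eq_one.1 h4
  rw [← zpow_natCast, ← zpow_mul] at hn1
  have := R673.MG.zpow_inj_of hcf (hn1.trans (zpow_zero c).symm)
  omega

theorem tame_of {G : Type u} [Group G] {P : Type v} [Group P] (f : G →* P)
    (hf : ∀ C : Subgroup G, C.FG → ¬ H71R2.Thin.Seen C → (f '' (C : Set G)).Finite)
    (L : Subgroup G) (hL : L.FG) : Tame L f := by
  have hLfg : Group.FG L := (Group.fg_iff_subgroup_fg L).2 hL
  have h1 : ¬ VirtuallyIndicable L → (f '' (L : Set G)).Finite := fun h =>
    hf L hL (N6.W.unseen_of_not_vi L h)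
  have h2 : (∀ a b : L, ¬ H785R3.GrowthA.FreePair a b) → CommutatorsFG L := fun h K hK =>
    N6.W.commutator_sub_fg hLfg h K hK
  have h3 : BoundedBetti L → CommutatorsFG L →
      ∃ A : Subgroup L, A.FiniteIndex ∧ ∀ a ∈ A, ∀ b ∈ A, f a * f b = f b * f a := by
    rintro ⟨b, hb⟩ hc
    exact N6.W.betti_gen f hf L hL b hb hc
  refine ⟨h1, ?_, ?_⟩
  · rintro hb (hc | hn)
    · exact h3 hb hc
    · refine h3 hb (h2 fun a b => ?_)
      obtain ⟨l, l', hne, he⟩ := hn a b
      exact N6.W.homog a b l l' hne he
  · intro hinf h hinj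
    have key : ¬ ¬ N6.W.VI L := by
      intro hvi
      have h4 := h1 hvi
      have h5 : (L : Set G).Finite := h4.of_finite_image hinj
      exact not_finite_iff_infinite.2 hinf h5.to_subtype
    rcases h with h | h | h | h | h | ⟨h, hb⟩
    · obtain ⟨n, hn, h⟩ := h
      exact key (N6.W.not_vi_of_torsion (fun g => ⟨n, hn, h g⟩))
    · exact key (N6.W.not_vi_of_no_fi (R673.MG.cyclic_no_fi h.1 h.2))
    · rcases type4_torsion h with h' | h'
      · exact key h'
      · exact absurd h' (type4_not_cyclic h)
    · exact key (N6.W.not_vi_of_no_fi (R673.MG.complete_no_fi h))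
    · exact key (N6.W.not_vi_of_finite_conj h)
    · obtain ⟨S, hS, hpoly, hexp⟩ := h
      obtain ⟨A, hA, hab⟩ := h3 hb (h2 (N6.W.no_freePair S hS hexp))
      refine N6.W.not_injective_of_type7 L (f.comp L.subtype) A hA hab S hpoly ?_
      intro x y hxy
      exact Subtype.ext (hinj x.2 y.2 hxy)

/-- For every homomorphism `f` from a finitely presented group `G` to the full group of an action of
slow growth (or the topological full group, if the space is compact) and every finitely generated
subgroup `L` of `G`: if `L` is not virtually indicable, then `f(L)` is finite; if the first Betti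
numbers of the finite index subgroups of `L` are bounded and `L` has no free subsemigroup (or the
commutator subgroups of finite index subgroups are finitely generated), then `f(L)` is virtually
abelian; `f` is not injective on `L` if `L` is a monster of type (2)-(6), or of type (7) with
bounded Betti numbers. -/
theorem result (G : Type u) [Group G] [Group.IsFinitelyPresented G] (L : Subgroup G) (hL : L.FG)
    (Γ : Type w) (X : Type v) [Group Γ] [MulAction Γ X] (hslow : Slow Γ X) :
    (∀ f : G →* Equiv.Perm X, (∀ g, Piecewise Γ (f g)) → Tame L f) ∧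
    (∀ [TopologicalSpace X] [CompactSpace X] (f : G →* (X ≃ₜ X)),
      (∀ g, Locally Γ (f g)) → Tame L f) := by
  have hs : N6.W.SlowA Γ (Set.univ : Set X) := by
    intro E hE δ hδ n₀
    obtain ⟨n, hn, h⟩ := hslow E hE δ hδ n₀
    exact ⟨n, hn, fun x _ => h x⟩
  exact ⟨fun f hf => tame_of f (fun C hC hCs =>
      N6.W.slow_finite G C hC hCs Γ X hs f hf) L hL,
    fun f hf => tame_of f (fun C hC hCs =>
      N6.W.slow_finite_top G C hC hCs Γ X hs f hf) L hL⟩

end Pool.Agent.Results.MP_65b575_al.SubgroupsOfSlowGroups
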